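import Pool.Agent.MWNP.Stmts

/-!
# Row PHF of block MWNP (helper47), the twin of NHF (helper49)
-/

namespace Pool.Agent.MWNP.H47

open Pool.Agent.Helper14_MV Pool.Agent.Helper2_MV Pool.Agent.MVO Pool.Agent.MWL Pool.Agent.MWS
  Pool.Agent.MWF Pool.Agent.MWN Pool.Agent.MWNP

theorem rr_tr {β : FIC} {l m n : List ℕ} (h : RR β l m) (h' : RR β m n) : RR β l n :=
  β.trans h h'

/-- one block words in `0`, `1` which are in no state -/
theorem hst0 {n : ℕ} {β : FIC} (hH : HBP n β) (u v : List ℕ) (hu : ∀ c ∈ u, c = 0 ∨ c = 1)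
    (hv : ∀ c ∈ v, c = 0 ∨ c = 1) (u0 : 2 ≤ u.count 0) (u1 : 2 ≤ u.count 1)
    (v0 : 2 ≤ v.count 0) (v1 : 2 ≤ v.count 1) (m0 : u.count 0 ≡ v.count 0 [MOD n])
    (m1 : u.count 1 ≡ v.count 1 [MOD n]) (su : [0, 1].Sublist u ∧ [1, 0].Sublist u)
    (sv : [0, 1].Sublist v ∧ [1, 0].Sublist v) : RR β u v := by
  have ok : ∀ u : List ℕ, (∀ c ∈ u, c = 0 ∨ c = 1) → 2 ≤ u.count 0 → 2 ≤ u.count 1 →
      OkB 0 (fun _ => u) := by
    intro u hu u0 u1
    constructor
    · intro j hj c hc
      unfold NS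
      rcases hu c hc with rfl | rfl <;> omega
    · intro j hj c hc
      unfold deg
      simp only [zero_add, Finset.sum_range_one]
      rcases hu c hc with rfl | rfl
      · exact u0
      · exact u1
  refine hH.hst 0 (fun _ => u) (fun _ => v) (ok u hu u0 u1) (ok v hv v0 v1)
    (fun _ _ c hc => hu c hc) (fun _ _ c hc => hv c hc) (fun _ _ => Or.inr ⟨u0, v0, m0⟩)
    (fun _ _ => Or.inr ⟨u1, v1, m1⟩) ?_
  intro i _ _
  unfold Fst
  constructor
  · simp only [Bool.false_eq_true, if_false]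
    exact ⟨fun h => absurd su.2 h, fun h => absurd sv.2 h⟩
  · simp only [if_true]
    exact ⟨fun h => absurd su.1 h, fun h => absurd sv.1 h⟩

theorem opJ {n : ℕ} {β : FIC} (h : Op n β (Bit.J 3)) :
    RR β [0, 2, 0, 3, 0] ([0, 2, 0, 3] ++ List.replicate (2 * n + 1) 0) := by
  have e : mw 2 (ad n (fun _ => 1) 2) = [0, 2, 0, 3] ++ List.replicate (2 * n + 1) 0 := by
    simp [mw, asm, ad, add_comm]
  have h' : RR β (mw 2 (fun _ => 1)) (mw 2 (ad n (fun _ => 1) 2)) := h
  rw [e] at h'
  exact h'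

theorem opD {n : ℕ} {β : FIC} (h : Op n β (Bit.D 1)) :
    RR β [0, 2, 0, 3, 0, 0] ([0, 2] ++ (List.replicate (2 * n + 1) 0 ++ [3, 0, 0])) := by
  have e : mw 2 (ad n (fun j => if j ≤ 1 then 1 else 2) 1) =
      [0, 2] ++ (List.replicate (2 * n + 1) 0 ++ [3, 0, 0]) := by
    simp [mw, asm, ad, add_comm]
  have h' : RR β (mw 2 (fun j => if j ≤ 1 then 1 else 2))
    (mw 2 (ad n (fun j => if j ≤ 1 then 1 else 2) 1)) := h
  rw [e] at h'
  exact h'

/-- row PHF -/
theorem phf (hN : PddStmt) (_h1a : P1aStmt) (h1b : P1bStmt) (h5 : P5xStmt) (h8 : Ph8Stmt)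
    (h3 : Ph3Stmt) : PhfStmt := by
  intro n β hH hI hM
  obtain ⟨m, rfl⟩ : ∃ m, n = m + 1 := ⟨n - 1, by have := hH.pos; omega⟩
  have pdd := hN (m + 1) β hH
  have hmod : 2 * (m + 1) + 1 ≡ m + 1 + 1 [MOD (m + 1)] := by
    have e : 2 * (m + 1) + 1 = (m + 1) * 1 + (m + 1 + 1) := by ring
    rw [e]
    exact Nat.mul_add_mod _ _ _
  have hred : ∀ p q : List ℕ, RR β (p ++ (List.replicate (2 * (m + 1) + 1) 0 ++ q))
      (p ++ (List.replicate (m + 1 + 1) 0 ++ q)) := fun p q =>
    pdd.2 p q 0 _ _ (by omega) (by omega) hmod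
  by_cases hJ : Op (m + 1) β (Bit.J 3)
  · have j1 : RR β [0, 2, 0, 3, 0] ([0, 2, 0, 3] ++ List.replicate (m + 1 + 1) 0) := by
      have h := hred [0, 2, 0, 3] []
      rw [List.append_nil, List.append_nil] at h
      exact rr_tr (opJ hJ) h
    by_cases hD : Op (m + 1) β (Bit.D 0)
    · left
      have e1 : RR β ([0, 2, 0, 3] ++ List.replicate (m + 1 + 1) 0)
          ([0, 2] ++ (List.replicate (m + 1 + 1) 0 ++ (3 :: List.replicate (m + 1 + 1) 0))) :=
        rr_tr (pdd.1 hD [0, 2] [3] (List.replicate m 0) 0)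
          (hred [0, 2] (3 :: List.replicate (m + 1 + 1) 0))
      have e2 : RR β
          ([0, 2] ++ (List.replicate (m + 1 + 1) 0 ++ (3 :: List.replicate (m + 1 + 1) 0)))
          (List.replicate (m + 1 + 1) 0 ++ 2 :: (List.replicate (m + 1 + 1) 0 ++
            3 :: List.replicate (m + 1 + 1) 0)) := by
        have h := pdd.1 hD [] [2] (List.replicate m 0 ++ 3 :: List.replicate (m + 1 + 1) 0) 0
        have e3 : [] ++ 0 :: ([2] ++ 0 :: 0 ::
            (List.replicate m 0 ++ 3 :: List.replicate (m + 1 + 1) 0)) =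
            [0, 2] ++ (List.replicate (m + 1 + 1) 0 ++ (3 :: List.replicate (m + 1 + 1) 0)) := by
          simp [List.replicate_succ]
        have e4 : [2] ++ 0 :: 0 ::
            (List.replicate m 0 ++ 3 :: List.replicate (m + 1 + 1) 0) =
            2 :: (List.replicate (m + 1 + 1) 0 ++ 3 :: List.replicate (m + 1 + 1) 0) := by
          simp [List.replicate_succ]
        rw [e3, e4] at h
        exact rr_tr h
          (hred [] (2 :: (List.replicate (m + 1 + 1) 0 ++ 3 :: List.replicate (m + 1 + 1) 0)))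
      have c1 : RR β [1, 1, 0, 2, 0, 0] [1, 0, 1, 2, 0, 0] := h1b _ β hH hI hM hD true
      have c2 : RR β [1, 1, 0, 0, 0] [1, 0, 1, 0, 0] := c1.filter (fun c => decide (c ≠ 2))
      have c3 : RR β [1, 1, 0, 0] ([1, 1] ++ List.replicate (m + 1 + 2) 0) :=
        (RR.refl [1, 1]).append hH.ap
      have c4 : RR β ([1, 1] ++ List.replicate (m + 1 + 2) 0)
          ([1, 0, 1, 0, 0] ++ List.replicate m 0) := c2.append (RR.refl (List.replicate m 0))
      have c5 : RR β ([1, 0, 1, 0, 0] ++ List.replicate m 0) [1, 0, 1, 0] := by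
        refine hst0 hH _ _ ?_ (by simp) ?_ ?_ (by decide) (by decide) ?_ ?_ ⟨?_, ?_⟩
          ⟨by decide, by decide⟩
        · intro c hc
          rw [List.mem_append, List.mem_replicate] at hc
          rcases hc with hc | hc
          · simp at hc
            tauto
          · exact Or.inl hc.2
        · rw [List.count_append]
          have : [1, 0, 1, 0, 0].count 0 = 3 := by decide
          omega
        · rw [List.count_append]
          have : [1, 0, 1, 0, 0].count 1 = 2 := by decide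
          omega
        · rw [List.count_append, List.count_replicate_self]
          have e3 : [1, 0, 1, 0, 0].count 0 = 3 := by decide
          have e4 : [1, 0, 1, 0].count 0 = 2 := by decide
          rw [e3, e4]
          have e5 : 3 + m = (m + 1) * 1 + 2 := by ring
          rw [e5]
          exact Nat.mul_add_mod _ _ _
        · rw [List.count_append]
          have e3 : [1, 0, 1, 0, 0].count 1 = 2 := by decide
          have e4 : [1, 0, 1, 0].count 1 = 2 := by decide
          have e5 : (List.replicate m 0).count 1 = 0 := by simp [List.count_replicate]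
          rw [e3, e4, e5]
        · exact (by decide : [0, 1].Sublist [1, 0, 1, 0, 0]).trans (List.sublist_append_left _ _)
        · exact (by decide : [1, 0].Sublist [1, 0, 1, 0, 0]).trans (List.sublist_append_left _ _)
      have c6 : RR β [1, 1, 0, 0] [1, 0, 1, 0] := rr_tr c3 (rr_tr c4 c5)
      have c7 : RR β [0, 0, 1, 1] [0, 1, 0, 1] :=
        c6.sub (fun c => if c = 0 then [1] else [0])
      have c8 : RR β [0, 1, 0, 1] [1, 0, 1, 0] := by
        refine hst0 hH _ _ (by simp) (by simp) (by decide) (by decide) (by decide) (by decide)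
          rfl rfl ⟨by decide, by decide⟩ ⟨by decide, by decide⟩
      exact ⟨rr_tr c7 (rr_tr c8 c6.symm), rr_tr j1 (rr_tr e1 e2)⟩
    · right; right
      have s8 := h8 _ β hH hI hM hD
      by_cases hD1 : Op (m + 1) β (Bit.D 1)
      · right
        have d1 : RR β ([0, 2, 0, 3] ++ List.replicate (m + 1 + 1) 0)
            ([0, 2] ++ (List.replicate (2 * (m + 1) + 1) 0 ++ 3 ::
              List.replicate (m + 1 + 1) 0)) := by
          have h := (opD hD1).append (RR.refl (List.replicate m 0))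
          rw [List.append_assoc, List.append_assoc] at h
          exact h
        exact ⟨s8, rr_tr j1 (rr_tr d1 (hred [0, 2] (3 :: List.replicate (m + 1 + 1) 0)))⟩
      · left
        have c5 : RR β [0, 1, 2, 0, 0, 3, 1, 4, 0, 0] [1, 0, 2, 0, 0, 3, 1, 4, 0, 0] :=
          h5 _ β hH hI hM hD1
        have c6 : RR β [1, 0, 2, 1, 1, 3, 0, 4, 1, 1] [0, 1, 2, 1, 1, 3, 0, 4, 1, 1] :=
          c5.sub (fun c => if c = 0 then [1] else if c = 1 then [0] else [c])
        exact ⟨s8, j1, c6.symm⟩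
  · right; left
    exact h3 _ β hH hI hM hJ

end Pool.Agent.MWNP.H47
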